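import Mathlib

namespace Pool.Agent.Results.MP_25dd1e_co.Double

/-- `a 0, …, a n` is acceptable for `b, c` -/
def Acceptable (b c n : ℕ) (a : ℕ → ℤ) : Prop :=
  a 0 = 0 ∧ (∀ i, i < n → a i < a (i + 1)) ∧ ∀ i, i + b ≤ n → a (i + b) ≤ a i + c

/-- `a 0, …, a n` hits `k` -/
def Hits (k n : ℕ) (a : ℕ → ℤ) : Prop := ∃ i j, i < j ∧ j ≤ n ∧ a j = a i + k

lemma mono {n : ℕ} {a : ℕ → ℤ} (h : ∀ i, i < n → a i < a (i + 1)) {i j : ℕ} (hij : i < j)
    (hj : j ≤ n) : a i < a j := by
  induction j, hij using Nat.le_induction with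
  | base => exact h i (by omega)
  | succ j _ ih => exact (ih (by omega)).trans (h j (by omega))

lemma gap {k n : ℕ} {a : ℕ → ℤ} (hk : 0 < k) (h : ∀ i, i < n → a i < a (i + 1))
    (hn : ¬ Hits k n a) (i : ℕ) (hi : i + k ≤ n) : a i + 2 * k ≤ a (i + k) := by
  by_contra hlt
  have hk' : (0 : ℤ) < k := by exact_mod_cast hk
  obtain ⟨x, hx, y, hy, hxy, he⟩ := Finset.exists_ne_map_eq_of_card_lt_of_maps_to
    (s := Finset.range (k + 1)) (t := Finset.Ico (0 : ℤ) k) (by simp)
    (f := fun t => (a (i + t) - a i) % k) (fun t _ => by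
      simp only [Finset.coe_Ico, Set.mem_Ico]
      exact ⟨Int.emod_nonneg _ hk'.ne', Int.emod_lt_of_pos _ hk'⟩)
  rw [Finset.mem_range] at hx hy
  wlog hlt' : x < y generalizing x y
  · exact this y hy x hx hxy.symm he.symm (by omega)
  have h1 : a (i + x) < a (i + y) := mono h (by omega) (by omega)
  have h2 : a i ≤ a (i + x) := by
    rcases Nat.eq_zero_or_pos x with rfl | hx0
    · simp
    · exact (mono h (by omega) (by omega)).le
  have h3 : a (i + y) ≤ a (i + k) := by
    rcases Nat.lt_or_ge y k with hy0 | hy0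
    · exact (mono h (by omega) (by omega)).le
    · rw [show y = k by omega]
  obtain ⟨q, hq⟩ := Int.ModEq.dvd he
  have hq1 : q = 1 := by
    have a1 : 0 < q := by nlinarith
    have a2 : q < 2 := by nlinarith
    omega
  subst hq1
  exact hn ⟨i + x, i + y, by omega, by omega, by linarith⟩

lemma upper (g b k : ℕ) (hg : 0 < g) (hb : 0 < b) (hk : 0 < k) (hc : Nat.Coprime b (2 * k))
    (a : ℕ → ℤ) (ha : Acceptable (g * b) (2 * (g * b)) (g * b + g * (2 * k) - g) a) :
    Hits (g * (2 * k)) (g * b + g * (2 * k) - g) a := by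
  by_contra hn
  obtain ⟨h0, h1, h2⟩ := ha
  have hM : 0 < b + 2 * k := by omega
  have hgb : g ≤ g * b := Nat.le_mul_of_pos_right g hb
  have step : ∀ i, i < b + 2 * k →
      a (g * ((i + b) % (b + 2 * k))) - 2 * g * (((i + b) % (b + 2 * k) : ℕ) : ℤ)
        ≤ a (g * i) - 2 * g * i := by
    intro i hi
    rcases Nat.lt_or_ge i (2 * k) with h | h
    · rw [Nat.mod_eq_of_lt (by omega)]
      have e : g * (i + 1) ≤ g * (2 * k) := Nat.mul_le_mul_left g h
      have := h2 (g * i) (by rw [mul_add] at e; omega)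
      rw [mul_add]; push_cast at this ⊢; linarith
    · obtain ⟨j, rfl⟩ := Nat.exists_eq_add_of_le h
      rw [show 2 * k + j + b = j + (b + 2 * k) by ring, Nat.add_mod_right, Nat.mod_eq_of_lt (by omega)]
      have e : g * (j + 1) ≤ g * b := Nat.mul_le_mul_left g (by omega)
      have := gap (by positivity) h1 hn (g * j) (by rw [mul_add] at e; omega)
      rw [show g * (2 * k + j) = g * j + g * (2 * k) by ring]
      push_cast at this ⊢; linarith
  have iter : ∀ i, i < b + 2 * k → ∀ t,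
      a (g * ((i + t * b) % (b + 2 * k))) - 2 * g * (((i + t * b) % (b + 2 * k) : ℕ) : ℤ)
        ≤ a (g * i) - 2 * g * i := by
    intro i hi t
    induction t with
    | zero => simp [Nat.mod_eq_of_lt hi]
    | succ t ih =>
      have := step _ (Nat.mod_lt (i + t * b) hM)
      rw [Nat.mod_add_mod, show i + t * b + b = i + (t + 1) * b by ring] at this
      exact this.trans ih
  have hcop : Nat.Coprime b (b + 2 * k) := by simpa using hc
  obtain ⟨s, -, hs⟩ := Nat.exists_mul_mod_eq_one_of_coprime hcop (by omega : 1 < b + 2 * k)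
  have reach : ∀ i j, i < b + 2 * k → j < b + 2 * k → ∃ t, (i + t * b) % (b + 2 * k) = j := by
    intro i j hi hj
    refine ⟨s * (b + 2 * k - i + j), ?_⟩
    have e1 : b * s ≡ 1 [MOD (b + 2 * k)] := by
      unfold Nat.ModEq; rw [hs, Nat.mod_eq_of_lt (by omega)]
    have e2 : i + s * (b + 2 * k - i + j) * b ≡ i + 1 * (b + 2 * k - i + j) [MOD (b + 2 * k)] := by
      rw [show s * (b + 2 * k - i + j) * b = (b * s) * (b + 2 * k - i + j) by ring]
      exact (e1.mul_right _).add_left _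
    rw [e2, show i + 1 * (b + 2 * k - i + j) = j + (b + 2 * k) by omega, Nat.add_mod_right,
      Nat.mod_eq_of_lt hj]
  obtain ⟨t1, ht1⟩ := reach 0 k hM (by omega)
  obtain ⟨t2, ht2⟩ := reach k 0 (by omega) hM
  have i1 := iter 0 hM t1
  have i2 := iter k (by omega) t2
  rw [ht1] at i1
  rw [ht2] at i2
  simp only [mul_zero, h0, Nat.cast_zero] at i1 i2
  refine hn ⟨0, g * k, by positivity, ?_, ?_⟩
  · have : g * (2 * k) = g * k + g * k := by ring
    omega
  · rw [h0]; push_cast; linarith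

def e (k s y : ℕ) : ℤ := if 1 ≤ (y * s) % (2 * k) ∧ (y * s) % (2 * k) ≤ k then 1 else 0

lemma lower (g b k : ℕ) (hg : 0 < g) (hk : 0 < k) (hc : Nat.Coprime b (2 * k)) (n : ℕ)
    (hn : n < g * b + g * (2 * k) - g) :
    ∃ a, Acceptable (g * b) (2 * (g * b)) n a ∧ ¬ Hits (g * (2 * k)) n a := by
  obtain ⟨s, -, hs⟩ := Nat.exists_mul_mod_eq_one_of_coprime hc (by omega : 1 < 2 * k)
  have e01 : ∀ y, e k s y = 0 ∨ e k s y = 1 := by
    intro y; unfold e; split_ifs <;> simp
  have hM : 0 < 2 * k := by omega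
  have sodd : s % 2 = 1 := by
    have h1 : (b * s) % (2 * k) % 2 = (b * s) % 2 := Nat.mod_mod_of_dvd _ (Dvd.intro k rfl)
    rw [hs] at h1
    rcases Nat.mod_two_eq_zero_or_one s with h | h
    · rw [Nat.mul_mod, h] at h1; simp at h1
    · exact h
  have eb : ∀ y, 0 < y → y < 2 * k → e k s (y + b) ≤ e k s y := by
    intro y hy0 hy
    have h1 : ((y + b) * s) % (2 * k) = ((y * s) % (2 * k) + 1) % (2 * k) := by
      rw [add_mul, Nat.add_mod, hs]
    have h2 : (y * s) % (2 * k) ≠ 0 := by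
      intro h
      have h3 : (y * (b * s)) % (2 * k) = y := by
        rw [Nat.mul_mod, hs, mul_one, Nat.mod_mod, Nat.mod_eq_of_lt hy]
      rw [show y * (b * s) = (y * s) * b by ring, Nat.mul_mod, h] at h3
      simp at h3; omega
    have h4 := Nat.mod_lt (y * s) hM
    unfold e
    rw [h1]
    generalize (y * s) % (2 * k) = p at *
    rcases Nat.lt_or_ge (p + 1) (2 * k) with h | h
    · rw [Nat.mod_eq_of_lt h]; split_ifs <;> omega
    · rw [show p + 1 = 2 * k by omega, Nat.mod_self]; split_ifs <;> omega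
  have ek : ∀ y, e k s (y + k) ≠ e k s y := by
    intro y
    have h0 : (k * s) % (2 * k) = k := by
      rw [mul_comm 2 k, Nat.mul_mod_mul_left, sodd, mul_one]
    have h1 : ((y + k) * s) % (2 * k) = ((y * s) % (2 * k) + k) % (2 * k) := by
      rw [add_mul, Nat.add_mod, h0]
    have h4 := Nat.mod_lt (y * s) hM
    unfold e
    rw [h1]
    generalize (y * s) % (2 * k) = p at *
    rcases Nat.lt_or_ge (p + k) (2 * k) with h | h
    · rw [Nat.mod_eq_of_lt h]; split_ifs <;> omega
    · rw [show p + k = (p - k) + 2 * k by omega, Nat.add_mod_right, Nat.mod_eq_of_lt (by omega)]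
      split_ifs <;> omega
  have hg' : (0 : ℤ) < g := by exact_mod_cast hg
  refine ⟨fun j => g * (2 * ((j / g : ℕ) : ℤ) + e k s (j / g + 1) - e k s 1) + ((j % g : ℕ) : ℤ),
    ⟨by simp, fun i _ => ?_, fun i hi => ?_⟩, ?_⟩
  · obtain ⟨q, r, hr, rfl⟩ : ∃ q r, r < g ∧ i = r + g * q :=
      ⟨i / g, i % g, Nat.mod_lt _ hg, (Nat.mod_add_div i g).symm⟩
    simp only
    rw [Nat.add_mul_div_left _ _ hg, Nat.add_mul_mod_self_left, Nat.div_eq_of_lt hr,
      Nat.mod_eq_of_lt hr]
    rcases Nat.lt_or_ge (r + 1) g with h | h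
    · rw [show r + g * q + 1 = (r + 1) + g * q by ring, Nat.add_mul_div_left _ _ hg,
        Nat.add_mul_mod_self_left, Nat.div_eq_of_lt h, Nat.mod_eq_of_lt h]
      push_cast; linarith
    · rw [show r + g * q + 1 = g * (q + 1) by rw [mul_add]; omega, Nat.mul_div_cancel_left _ hg,
        Nat.mul_mod_right]
      have hr' : (r : ℤ) < g := by exact_mod_cast hr
      rcases e01 (q + 1 + 1) with h1 | h1 <;> rcases e01 (0 + q + 1) with h2 | h2 <;>
        rw [h1, h2] <;> push_cast <;> nlinarith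
  · simp only
    rw [Nat.add_mul_div_left _ _ hg, Nat.add_mul_mod_self_left]
    have h1 : i / g + 1 < 2 * k := by
      have : i / g < 2 * k - 1 := by
        rw [Nat.div_lt_iff_lt_mul hg, Nat.sub_mul, mul_comm (2 * k) g]; omega
      omega
    have := eb (i / g + 1) (Nat.succ_pos _) h1
    rw [show i / g + b + 1 = i / g + 1 + b by ring]
    push_cast; nlinarith
  · rintro ⟨i, j, -, -, h⟩
    simp only at h
    have hi : ((i % g : ℕ) : ℤ) < g := by exact_mod_cast Nat.mod_lt _ hg
    have hj : ((j % g : ℕ) : ℤ) < g := by exact_mod_cast Nat.mod_lt _ hg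
    have hi0 : (0 : ℤ) ≤ ((i % g : ℕ) : ℤ) := by positivity
    have hj0 : (0 : ℤ) ≤ ((j % g : ℕ) : ℤ) := by positivity
    generalize ((i % g : ℕ) : ℤ) = ri at *
    generalize ((j % g : ℕ) : ℤ) = rj at *
    generalize i / g = x at *
    generalize j / g = y at *
    have h1 : (g : ℤ) * (2 * y + e k s (y + 1) - 2 * x - e k s (x + 1) - 2 * k) = ri - rj := by
      push_cast at h; linarith
    have h2 : 2 * (y : ℤ) + e k s (y + 1) - 2 * x - e k s (x + 1) - 2 * k = 0 := by
      generalize 2 * (y : ℤ) + e k s (y + 1) - 2 * x - e k s (x + 1) - 2 * k = z at h1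
      have a1 : z < 1 := by nlinarith
      have a2 : -1 < z := by nlinarith
      omega
    have h3 : y = x + k := by
      rcases e01 (y + 1) with h3 | h3 <;> rcases e01 (x + 1) with h4 | h4 <;> omega
    subst h3
    apply ek (x + 1)
    rw [show x + 1 + k = x + k + 1 by ring]
    push_cast at h2; linarith

theorem result (b k : ℕ) (hb : 0 < b) (hk : 0 < k) (hv : padicValNat 2 b < padicValNat 2 k) :
    IsLeast {n : ℕ | 1 ≤ n ∧ ∀ a : ℕ → ℤ, Acceptable b (2 * b) n a → Hits k n a}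
      (b + k - Nat.gcd b k) := by
  obtain ⟨g, b', k', hg, hc, rfl, rfl⟩ := Nat.exists_coprime' (Nat.gcd_pos_of_pos_left k hb)
  have hb' : 0 < b' := Nat.pos_of_mul_pos_right hb
  have hk' : 0 < k' := Nat.pos_of_mul_pos_right hk
  rw [padicValNat.mul hb'.ne' hg.ne', padicValNat.mul hk'.ne' hg.ne'] at hv
  obtain ⟨κ, rfl⟩ : 2 ∣ k' := by
    by_contra h
    rw [padicValNat.eq_zero_of_not_dvd h] at hv
    omega
  rw [Nat.gcd_mul_right, hc.gcd_eq_one, one_mul, mul_comm b' g, mul_comm (2 * κ) g]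
  have hgb : g ≤ g * b' := Nat.le_mul_of_pos_right g hb'
  have hgk : 0 < g * (2 * κ) := by positivity
  refine ⟨⟨by omega, upper g b' κ hg hb' (by omega) hc⟩, fun n hn => ?_⟩
  by_contra hlt
  obtain ⟨a, ha, hh⟩ := lower g b' κ hg (by omega) hc n (by omega)
  exact hh (hn.2 a ha)

end Pool.Agent.Results.MP_25dd1e_co.Double
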